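import Pool.Agent.helper44.EX.Spec

/-!
# Project ex, module CHN: chains
-/

set_option autoImplicit false

open Complex Metric Set Filter Topology MeasureTheory Pool.Agent.helper98.ILF

noncomputable section

namespace EX

theorem CHN_mono {x y : ℝ} (hxy : x ≤ y) (hy : y < 1) : LL x ≤ LL y := by
  unfold LL
  rw [div_le_div_iff₀ (by linarith) (by linarith)]
  nlinarith

theorem CHN_one {x : ℝ} (hx : 0 ≤ x) (hx1 : x < 1) : 1 ≤ LL x := by
  unfold LL
  rw [le_div_iff₀ (by linarith)]
  linarith

theorem CHN_third {x : ℝ} (hx1 : x < 1) :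
    LL ((x - 1 / 2) / (1 - x / 2)) = LL x / 3 := by
  unfold LL
  have h1 : 1 - x ≠ 0 := by linarith
  have h2 : 1 - x / 2 ≠ 0 := by linarith
  have h2b : 2 - x ≠ 0 := by linarith
  have h3 : 1 - (x - 1 / 2) / (1 - x / 2) = 3 * (1 - x) / (2 * (1 - x / 2)) := by
    field_simp
    ring
  have h4 : 1 + (x - 1 / 2) / (1 - x / 2) = (1 + x) / (2 * (1 - x / 2)) := by
    field_simp
    ring
  rw [h3, h4]
  field_simp

theorem CHN (hMOB : MOB_stmt) (hRHO : RHO_stmt) : CHN_stmt := by
  obtain ⟨hR1, hR2, hR3, hR4⟩ := hRHO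
  intro σ θ hσ hσ2 hmt hcon j
  have hσ1 : σ < 1 := by linarith
  have hL1 : 1 ≤ LL σ := CHN_one hσ.le hσ1
  induction j with
  | zero =>
    intro z hz w hw h
    obtain ⟨h0, h1, _, _⟩ := hR1 z hz w hw
    have hx : rho z w = 0 := by
      rw [pow_zero] at h
      unfold LL at h
      rw [div_le_one (by linarith)] at h
      linarith
    have hden : 1 - (starRingEnd ℂ) z * w ≠ 0 := by
      have hnz : -z ∈ ball (0 : ℂ) 1 := by
        rw [mem_ball_zero_iff, norm_neg]
        exact mem_ball_zero_iff.1 hz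
      have := (hMOB (-z) hnz).1 w hw
      rwa [map_neg, neg_mul, ← sub_eq_add_neg] at this
    have hzw : z = w := by
      unfold rho at hx
      rcases div_eq_zero_iff.1 hx with h2 | h2
      · exact sub_eq_zero.1 (norm_eq_zero.1 h2)
      · exact absurd (norm_eq_zero.1 h2) hden
    rw [hzw, (hR2 (θ w)).2, pow_zero]
    unfold LL
    norm_num
  | succ j ih =>
    intro z hz w hw h
    obtain ⟨h0, h1, _, _⟩ := hR1 z hz w hw
    rcases le_or_gt (rho z w) (1 / 2) with h2 | h2
    · refine (CHN_mono (hcon z hz w hw h2) hσ1).trans ?_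
      calc LL σ = LL σ ^ 1 := (pow_one _).symm
        _ ≤ LL σ ^ (j + 1) := pow_le_pow_right₀ hL1 (Nat.succ_le_succ (Nat.zero_le j))
    · obtain ⟨_, _, hmz, _, hz0, _, hinv, _, _⟩ := hMOB z hz
      have hnorm := (hMOB z hz).2.2.2.2.2.2.2.1 w hw
      set w' : ℂ := tau (-z) w with hw'
      set x : ℝ := rho z w with hx
      have hx0 : (0 : ℝ) < x := by linarith
      have hw'b : w' ∈ ball (0 : ℂ) 1 := by
        rw [mem_ball_zero_iff, hnorm]
        exact h1
      set u' : ℂ := ((1 / (2 * x) : ℝ) : ℂ) * w' with hu'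
      have hu'n : ‖u'‖ = 1 / 2 := by
        rw [hu', norm_mul, Complex.norm_real, hnorm, Real.norm_eq_abs,
          abs_of_pos (by positivity)]
        field_simp
      have hu'b : u' ∈ ball (0 : ℂ) 1 := by
        rw [mem_ball_zero_iff, hu'n]
        norm_num
      have hub : tau z u' ∈ ball (0 : ℂ) 1 := hmz hu'b
      have hzu : rho z (tau z u') = 1 / 2 := by
        have e1 := hR3 z hz 0 (mem_ball_self one_pos) u' hu'b
        rw [hz0, (hR2 u').1, hu'n] at e1
        exact e1
      have huw : rho (tau z u') w = (x - 1 / 2) / (1 - x / 2) := by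
        have e1 := hR3 z hz u' hu'b w' hw'b
        rw [(hinv w hw).2] at e1
        rw [e1]
        unfold rho
        have e2 : u' - w' = ((1 / (2 * x) - 1 : ℝ) : ℂ) * w' := by
          rw [hu']
          push_cast
          ring
        have e3 : 1 - (starRingEnd ℂ) u' * w' = ((1 - x / 2 : ℝ) : ℂ) := by
          have e4 : (starRingEnd ℂ) w' * w' = ((x ^ 2 : ℝ) : ℂ) := by
            rw [mul_comm, Complex.mul_conj, Complex.normSq_eq_norm_sq, hnorm]
          rw [hu', map_mul, Complex.conj_ofReal, mul_assoc, e4, ← Complex.ofReal_mul]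
          have e5 : 1 / (2 * x) * x ^ 2 = x / 2 := by field_simp
          rw [e5]
          push_cast
          ring
        rw [e2, e3, norm_mul, Complex.norm_real, Complex.norm_real, hnorm, Real.norm_eq_abs,
          Real.norm_eq_abs, abs_of_pos (by linarith : (0 : ℝ) < 1 - x / 2), abs_of_nonpos]
        · congr 1
          field_simp
          ring
        · have : 1 / (2 * x) ≤ 1 := by
            rw [div_le_one (by linarith)]
            linarith
          linarith
      have hLuw : LL (rho (tau z u') w) ≤ 3 ^ j := by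
        rw [huw, CHN_third h1, div_le_iff₀ (by norm_num : (0 : ℝ) < 3), ← pow_succ]
        exact h
      have h5 := ih (tau z u') hub w hw hLuw
      have h6 : LL (rho (θ z) (θ (tau z u'))) ≤ LL σ :=
        CHN_mono (hcon z hz _ hub hzu.le) hσ1
      have h7 := hR4 (θ z) (hmt hz) (θ (tau z u')) (hmt hub) (θ w) (hmt hw)
      have h8 : 0 ≤ LL (rho (θ (tau z u')) (θ w)) := by
        obtain ⟨g0, g1, _, _⟩ := hR1 (θ (tau z u')) (hmt hub) (θ w) (hmt hw)
        exact zero_le_one.trans (CHN_one g0 g1)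
      calc LL (rho (θ z) (θ w)) ≤ LL (rho (θ z) (θ (tau z u'))) * LL (rho (θ (tau z u')) (θ w)) := h7
        _ ≤ LL σ * LL σ ^ j := mul_le_mul h6 h5 h8 (zero_le_one.trans hL1)
        _ = LL σ ^ (j + 1) := by ring

end EX
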